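import Pool.Agent.Lib.MP_688fd0_co.SQ6.Iface

/-!
Board B1*, row GEN: a short word `l` such that `l.prod ω` generates `C`.
-/

set_option autoImplicit false

namespace Pool.Agent.Lib.MP_688fd0_co.SQ6

namespace Gen

variable {H : Type} [Group H] [Finite H]

/-- every element is the product of a word in `V` -/
lemma word {V : Set H} (hV : Subgroup.closure V = ⊤) (h : H) :
    ∃ l : List H, (∀ v ∈ l, v ∈ V) ∧ l.prod = h := by
  have h1 : h ∈ Submonoid.closure V := by
    rw [← Subgroup.closure_toSubmonoid_of_finite, hV]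
    trivial
  exact Submonoid.exists_list_of_mem_closure h1

/-- modulo `C` the word can be chosen short -/
lemma short (V : Set H) (C : Subgroup H) [C.Normal] :
    ∀ n : ℕ, ∀ l : List H, l.length = n → (∀ v ∈ l, v ∈ V) →
      ∃ l' : List H, (∀ v ∈ l', v ∈ V) ∧ l'.length ≤ C.index ∧
        QuotientGroup.mk' C l'.prod = QuotientGroup.mk' C l.prod := by
  intro n
  induction n using Nat.strong_induction_on with
  | _ n ih =>
    intro l hl hlV
    by_cases hn : l.length ≤ C.index
    · exact ⟨l, hlV, hn, rfl⟩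
    push Not at hn
    have hni : ¬ Function.Injective
        (fun i : Fin (C.index + 1) => QuotientGroup.mk' C (l.take i).prod) := by
      intro hinj
      have := Nat.card_le_card_of_injective _ hinj
      rw [Nat.card_eq_fintype_card, Fintype.card_fin] at this
      change C.index + 1 ≤ C.index at this
      omega
    rw [Function.not_injective_iff] at hni
    obtain ⟨i, j, hij, hne⟩ := hni
    wlog hlt : i < j generalizing i j
    · exact this j i hij.symm hne.symm (lt_of_le_of_ne (not_lt.1 hlt) hne.symm)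
    have hi := i.2
    have hj := j.2
    have hlt' : (i : ℕ) < j := hlt
    obtain ⟨l', h1, h2, h3⟩ := ih (l.take i ++ l.drop j).length
      (by
        rw [List.length_append, List.length_take, List.length_drop]
        omega) (l.take i ++ l.drop j) rfl
      (by
        intro v hv
        rcases List.mem_append.1 hv with h | h
        · exact hlV v (List.mem_of_mem_take h)
        · exact hlV v (List.mem_of_mem_drop h))
    refine ⟨l', h1, h2, ?_⟩
    rw [h3, List.prod_append, map_mul, hij, ← map_mul, ← List.prod_append, List.take_append_drop]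

/-- a short word in every coset -/
lemma rep {V : Set H} (hV : Subgroup.closure V = ⊤) (C : Subgroup H) [C.Normal] (h : H) :
    ∃ l : List H, (∀ v ∈ l, v ∈ V) ∧ l.length ≤ C.index ∧
      QuotientGroup.mk' C l.prod = QuotientGroup.mk' C h := by
  obtain ⟨l, h1, h2⟩ := word hV h
  obtain ⟨l', h3, h4, h5⟩ := short V C _ l rfl h1
  exact ⟨l', h3, h4, by rw [h5, h2]⟩

/-- for every prime there is a short loop whose product has a non-trivial component -/
lemma loop {V : Set H} (hV : Subgroup.closure V = ⊤) (C : Subgroup H) [C.Normal] (hC : IsCyclic C)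
    {p : ℕ} (hp : p ∈ (Nat.card C).primeFactors) :
    ∃ l : List H, (∀ v ∈ l, v ∈ V) ∧ l.length ≤ 2 * C.index + 1 ∧ l.prod ∈ C ∧
      l.prod ^ (Nat.card C / p) ≠ 1 := by
  by_contra hcon
  push Not at hcon
  obtain ⟨g, hg⟩ := hC.exists_generator
  have hcomm : ∀ x ∈ C, ∀ y ∈ C, Commute x y := by
    intro x hx y hy
    obtain ⟨a, ha⟩ := hg ⟨x, hx⟩
    obtain ⟨b, hb⟩ := hg ⟨y, hy⟩
    have ha' : (g : H) ^ a = x := congrArg Subtype.val ha
    have hb' : (g : H) ^ b = y := congrArg Subtype.val hb
    rw [← ha', ← hb']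
    exact (Commute.refl (g : H)).zpow_zpow a b
  have hpp := Nat.prime_of_mem_primeFactors hp
  have hpn := Nat.dvd_of_mem_primeFactors hp
  have hn0 : 0 < Nat.card C := Nat.card_pos
  -- the subgroup
  let D : Subgroup H :=
    { carrier := {x | x ∈ C ∧ x ^ (Nat.card C / p) = 1}
      mul_mem' := by
        rintro x y ⟨h1, h2⟩ ⟨h3, h4⟩
        exact ⟨C.mul_mem h1 h3, by rw [(hcomm x h1 y h3).mul_pow, h2, h4, one_mul]⟩
      one_mem' := ⟨C.one_mem, one_pow _⟩
      inv_mem' := by
        rintro x ⟨h1, h2⟩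
        exact ⟨C.inv_mem h1, by rw [inv_pow, h2, inv_one]⟩ }
  have hD : ∀ x, x ∈ D ↔ x ∈ C ∧ x ^ (Nat.card C / p) = 1 := fun _ => Iff.rfl
  have hrep : ∀ x : H ⧸ C, ∃ l : List H, (∀ v ∈ l, v ∈ V) ∧ l.length ≤ C.index ∧
      QuotientGroup.mk' C l.prod = x := by
    intro x
    obtain ⟨h, rfl⟩ := QuotientGroup.mk'_surjective C x
    exact rep hV C h
  choose t ht1 ht2 ht3 using hrep
  have hmemC : ∀ x : H, QuotientGroup.mk' C x = 1 → x ∈ C := fun x hx => by
    simpa using hx
  have hloop0 : ∀ x : H ⧸ C, (t x).prod * (t x⁻¹).prod ∈ D := by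
    intro x
    have hc : (t x).prod * (t x⁻¹).prod ∈ C := hmemC _ (by
      rw [map_mul, ht3, ht3, mul_inv_cancel])
    have := hcon (t x ++ t x⁻¹) (by
      intro v hv
      rcases List.mem_append.1 hv with hv | hv
      · exact ht1 _ v hv
      · exact ht1 _ v hv) (by
      rw [List.length_append]
      have h1 := ht2 x
      have h2 := ht2 x⁻¹
      omega) (by rw [List.prod_append]; exact hc)
    rw [List.prod_append] at this
    exact (hD _).2 ⟨hc, this⟩
  have hloop1 : ∀ x : H ⧸ C, ∀ v ∈ V,
      (t x).prod * v * (t (x * QuotientGroup.mk' C v)⁻¹).prod ∈ D := by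
    intro x v hv
    have hc : (t x).prod * v * (t (x * QuotientGroup.mk' C v)⁻¹).prod ∈ C := hmemC _ (by
      rw [map_mul, map_mul, ht3, ht3, mul_inv_cancel])
    have e : (t x ++ v :: t (x * QuotientGroup.mk' C v)⁻¹).prod =
        (t x).prod * v * (t (x * QuotientGroup.mk' C v)⁻¹).prod := by
      rw [List.prod_append, List.prod_cons, mul_assoc]
    have := hcon (t x ++ v :: t (x * QuotientGroup.mk' C v)⁻¹) (by
      intro u hu
      rcases List.mem_append.1 hu with hu | hu
      · exact ht1 _ u hu
      · rcases List.mem_cons.1 hu with hu | hu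
        · rw [hu]; exact hv
        · exact ht1 _ u hu) (by
      rw [List.length_append, List.length_cons]
      have h1 := ht2 x
      have h2 := ht2 (x * QuotientGroup.mk' C v)⁻¹
      omega) (by rw [e]; exact hc)
    rw [e] at this
    exact (hD _).2 ⟨hc, this⟩
  have hstep : ∀ x : H ⧸ C, ∀ v ∈ V,
      (t x).prod * v * (t (x * QuotientGroup.mk' C v)).prod⁻¹ ∈ D := by
    intro x v hv
    have e : (t x).prod * v * (t (x * QuotientGroup.mk' C v)).prod⁻¹ =
        ((t x).prod * v * (t (x * QuotientGroup.mk' C v)⁻¹).prod) *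
          ((t (x * QuotientGroup.mk' C v)).prod *
            (t (x * QuotientGroup.mk' C v)⁻¹).prod)⁻¹ := by group
    rw [e]
    exact D.mul_mem (hloop1 x v hv) (D.inv_mem (hloop0 _))
  have hall : ∀ l : List H, (∀ v ∈ l, v ∈ V) → ∀ x : H ⧸ C,
      (t x).prod * l.prod * (t (x * QuotientGroup.mk' C l.prod)).prod⁻¹ ∈ D := by
    intro l
    induction l with
    | nil =>
      intro _ x
      simp only [List.prod_nil, mul_one, map_one, mul_inv_cancel]
      exact D.one_mem
    | cons v l ih =>
      intro hl x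
      have h1 := hstep x v (hl v List.mem_cons_self)
      have h2 := ih (fun u hu => hl u (List.mem_cons_of_mem _ hu)) (x * QuotientGroup.mk' C v)
      have e : (t x).prod * (v :: l).prod *
          (t (x * QuotientGroup.mk' C (v :: l).prod)).prod⁻¹ =
          ((t x).prod * v * (t (x * QuotientGroup.mk' C v)).prod⁻¹) *
            ((t (x * QuotientGroup.mk' C v)).prod * l.prod *
              (t (x * QuotientGroup.mk' C v * QuotientGroup.mk' C l.prod)).prod⁻¹) := by
        rw [List.prod_cons, map_mul, ← mul_assoc x]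
        group
      rw [e]
      exact D.mul_mem h1 h2
  -- the generator
  obtain ⟨l, h1, h2⟩ := word hV (g : H)
  have h3 := hall l h1 1
  have h4 : QuotientGroup.mk' C (g : H) = 1 := by
    simp
  rw [h2, h4, mul_one] at h3
  have h5 := ((hD _).1 h3).2
  rw [conj_pow] at h5
  have h6 : (g : H) ^ (Nat.card C / p) = 1 := by
    rw [conj_eq_one_iff] at h5
    exact h5
  have h7 : g ^ (Nat.card C / p) = 1 := by
    apply Subtype.ext
    simpa using h6
  have h8 : orderOf g = Nat.card C := orderOf_eq_card_of_forall_mem_zpowers hg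
  have h9 := orderOf_dvd_of_pow_eq_one h7
  rw [h8] at h9
  have h10 : 0 < Nat.card C / p := Nat.div_pos (Nat.le_of_dvd hn0 hpn) hpp.pos
  have h11 := Nat.le_of_dvd h10 h9
  have h12 : Nat.card C / p < Nat.card C := Nat.div_lt_self hn0 hpp.one_lt
  omega

omit [Finite H] in
/-- an exponent which is good for all primes -/
lemma expo {n r : ℕ} (hr : n.primeFactors.card ≤ r) (hp : ∀ p ∈ n.primeFactors, r < p)
    {c x : H} (hcx : Commute c x) (hc : c ^ n = 1) :
    ∃ e ≤ r, ∀ p ∈ n.primeFactors, c ^ (n / p) ≠ 1 → (c ^ e * x) ^ (n / p) ≠ 1 := by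
  classical
  let bad : ℕ → Finset ℕ := fun p =>
    (Finset.range (r + 1)).filter (fun e => c ^ (n / p) ≠ 1 ∧ (c ^ e * x) ^ (n / p) = 1)
  have hbad : ∀ p ∈ n.primeFactors, (bad p).card ≤ 1 := by
    intro p hpm
    rw [Finset.card_le_one]
    have hpp := Nat.prime_of_mem_primeFactors hpm
    have hpn := Nat.dvd_of_mem_primeFactors hpm
    have : Fact p.Prime := ⟨hpp⟩
    have key : ∀ e f : ℕ, e < f → f < r + 1 → c ^ (n / p) ≠ 1 → (c ^ e * x) ^ (n / p) = 1 →
        (c ^ f * x) ^ (n / p) = 1 → False := by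
      intro e f hef hf hc1 he1 hf1
      rw [(hcx.pow_left e).mul_pow] at he1
      rw [(hcx.pow_left f).mul_pow] at hf1
      have h1 : (c ^ (n / p)) ^ (f - e) = 1 := by
        have h2 : (c ^ e) ^ (n / p) = (c ^ f) ^ (n / p) :=
          mul_right_cancel (he1.trans hf1.symm)
        rw [← pow_mul, ← pow_mul, mul_comm e, mul_comm f, pow_mul, pow_mul] at h2
        have h3 : (c ^ (n / p)) ^ f = (c ^ (n / p)) ^ (f - e) * (c ^ (n / p)) ^ e := by
          rw [← pow_add]; congr 1; omega
        rw [h3] at h2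
        exact (mul_eq_right.1 h2.symm)
      have h4 : (c ^ (n / p)) ^ p = 1 := by
        rw [← pow_mul, Nat.div_mul_cancel hpn, hc]
      have h5 : orderOf (c ^ (n / p)) = p := orderOf_eq_prime h4 hc1
      have h6 := orderOf_dvd_of_pow_eq_one h1
      rw [h5] at h6
      have h7 := Nat.le_of_dvd (by omega) h6
      have h8 := hp p hpm
      omega
    intro e he f hf
    have he' := Finset.mem_filter.1 he
    have hf' := Finset.mem_filter.1 hf
    rw [Finset.mem_range] at he' hf'
    rcases lt_trichotomy e f with h | h | h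
    · exact (key e f h hf'.1 he'.2.1 he'.2.2 hf'.2.2).elim
    · exact h
    · exact (key f e h he'.1 he'.2.1 hf'.2.2 he'.2.2).elim
  have hcard : (n.primeFactors.biUnion bad).card < (Finset.range (r + 1)).card := by
    rw [Finset.card_range]
    refine lt_of_le_of_lt Finset.card_biUnion_le ?_
    refine lt_of_le_of_lt (Finset.sum_le_sum hbad) ?_
    rw [Finset.sum_const, smul_eq_mul, mul_one]
    omega
  obtain ⟨e, he, hne⟩ := Finset.exists_mem_notMem_of_card_lt_card hcard
  refine ⟨e, by rw [Finset.mem_range] at he; omega, ?_⟩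
  intro p hpm hc1 hcon
  apply hne
  rw [Finset.mem_biUnion]
  exact ⟨p, hpm, Finset.mem_filter.2 ⟨he, hc1, hcon⟩⟩

/-- the word for a set of primes -/
lemma main {V : Set H} (hV : Subgroup.closure V = ⊤) (C : Subgroup H) [C.Normal] (hC : IsCyclic C)
    (ω : H) {r : ℕ} (hr : (Nat.card C).primeFactors.card ≤ r)
    (hp : ∀ p ∈ (Nat.card C).primeFactors, r < p) (F : Finset ℕ) :
    F ⊆ (Nat.card C).primeFactors → ∃ l : List H, (∀ v ∈ l, v ∈ V) ∧
      l.length ≤ C.index + F.card * (r * (2 * C.index + 1)) ∧ l.prod * ω ∈ C ∧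
      ∀ p ∈ F, (l.prod * ω) ^ (Nat.card C / p) ≠ 1 := by
  classical
  have hcomm : ∀ x ∈ C, ∀ y ∈ C, Commute x y := by
    obtain ⟨g, hg⟩ := hC.exists_generator
    intro x hx y hy
    obtain ⟨a, ha⟩ := hg ⟨x, hx⟩
    obtain ⟨b, hb⟩ := hg ⟨y, hy⟩
    have ha' : (g : H) ^ a = x := congrArg Subtype.val ha
    have hb' : (g : H) ^ b = y := congrArg Subtype.val hb
    rw [← ha', ← hb']
    exact (Commute.refl (g : H)).zpow_zpow a b
  have hpowC : ∀ x ∈ C, x ^ Nat.card C = 1 := by
    intro x hx
    have := pow_card_eq_one' (x := (⟨x, hx⟩ : C))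
    exact congrArg Subtype.val this
  induction F using Finset.induction_on with
  | empty =>
    intro _
    obtain ⟨l, h1, h2, h3⟩ := rep hV C ω⁻¹
    refine ⟨l, h1, by simpa using h2, ?_, by simp⟩
    have : QuotientGroup.mk' C (l.prod * ω) = 1 := by
      rw [map_mul, h3, ← map_mul, inv_mul_cancel, map_one]
    exact (QuotientGroup.eq_one_iff _).1 this
  | insert q F hq ih =>
    intro hF
    obtain ⟨l, h1, h2, h3, h4⟩ := ih ((Finset.subset_insert q F).trans hF)
    obtain ⟨u, hu1, hu2, hu3, hu4⟩ := loop hV C hC (hF (Finset.mem_insert_self q F))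
    obtain ⟨e, he, hgood⟩ := expo (n := Nat.card C) hr hp (hcomm _ hu3 _ h3) (hpowC _ hu3)
    have hlp : ((List.replicate e u).flatten ++ l).prod * ω = u.prod ^ e * (l.prod * ω) := by
      rw [List.prod_append, List.prod_flatten, List.map_replicate, List.prod_replicate, mul_assoc]
    refine ⟨(List.replicate e u).flatten ++ l, ?_, ?_, ?_, ?_⟩
    · intro v hv
      rcases List.mem_append.1 hv with hv | hv
      · obtain ⟨a, ha, hva⟩ := List.mem_flatten.1 hv
        rw [List.eq_of_mem_replicate ha] at hva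
        exact hu1 v hva
      · exact h1 v hv
    · rw [List.length_append, List.length_flatten, List.map_replicate, List.sum_replicate,
        smul_eq_mul, Finset.card_insert_of_notMem hq]
      have h5 : e * u.length ≤ r * (2 * C.index + 1) := Nat.mul_le_mul he hu2
      have h6 : (F.card + 1) * (r * (2 * C.index + 1)) =
          F.card * (r * (2 * C.index + 1)) + r * (2 * C.index + 1) := by ring
      omega
    · rw [hlp]
      exact C.mul_mem (C.pow_mem hu3 e) h3
    · intro p hpm
      rw [hlp]
      have hpn := hF hpm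
      by_cases hcp : u.prod ^ (Nat.card C / p) = 1
      · have hpq : p ≠ q := by
          rintro rfl
          exact hu4 hcp
        have hpF : p ∈ F := by
          rcases Finset.mem_insert.1 hpm with h | h
          · exact absurd h hpq
          · exact h
        rw [((hcomm _ hu3 _ h3).pow_left e).mul_pow, ← pow_mul, mul_comm e, pow_mul, hcp, one_pow,
          one_mul]
        exact h4 p hpF
      · exact hgood p hpn hcp

end Gen

open Gen in
theorem gen : GenS := by
  intro H _ _ V C ω hV hN hC _ hp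
  obtain ⟨r, hr⟩ : ∃ r, r = (Nat.card C).primeFactors.card := ⟨_, rfl⟩
  rw [← hr] at hp ⊢
  obtain ⟨l, h1, h2, h3, h4⟩ := main hV C hC ω (r := r) hr.ge
    (fun p hpm => by have := hp p hpm; omega) (Nat.card C).primeFactors (le_refl _)
  rw [← hr] at h2
  refine ⟨l, h1, h2.trans ?_, ?_⟩
  · nlinarith [Nat.zero_le r, Nat.zero_le C.index, Nat.zero_le (r * C.index),
      Nat.zero_le (r * r * C.index), Nat.zero_le (r * r)]
  · have hle : Subgroup.zpowers (l.prod * ω) ≤ C := by
      rw [Subgroup.zpowers_le]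
      exact h3
    apply Subgroup.eq_of_le_of_card_ge hle
    rw [Nat.card_zpowers]
    apply le_of_eq
    symm
    apply orderOf_eq_of_pow_and_pow_div_prime Nat.card_pos
    · have := pow_card_eq_one' (x := (⟨_, h3⟩ : C))
      exact congrArg Subtype.val this
    · intro p hpp hpn
      exact h4 p (Nat.mem_primeFactors.2 ⟨hpp, hpn, Nat.card_pos.ne'⟩)

end Pool.Agent.Lib.MP_688fd0_co.SQ6
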